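import Pool.Agent.H71.PX.Targets

/-!
# QT: the tasks are given by a quantifier-free formula (board pfc_modules)
-/

set_option autoImplicit false

open Pool.Agent.H71.PX

namespace Pool.Agent.H12.PX.QT

private theorem u0 (k : ℕ) : QD (fun _ R x _ _ => R k [x]) :=
  (QD.r1 k 0 (by norm_num)).congr fun _ _ _ _ _ => by simp [pk]

private theorem u1 (k : ℕ) : QD (fun _ R _ y _ => R k [y]) :=
  (QD.r1 k 1 (by norm_num)).congr fun _ _ _ _ _ => by simp [pk]

private theorem u2 (k : ℕ) : QD (fun _ R _ _ z => R k [z]) :=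
  (QD.r1 k 2 (by norm_num)).congr fun _ _ _ _ _ => by simp [pk]

private theorem b01 (k : ℕ) : QD (fun _ R x y _ => R k [x, y]) :=
  (QD.r2 k 0 1 (by norm_num) (by norm_num)).congr fun _ _ _ _ _ => by simp [pk]

private theorem b02 (k : ℕ) : QD (fun _ R x _ z => R k [x, z]) :=
  (QD.r2 k 0 2 (by norm_num) (by norm_num)).congr fun _ _ _ _ _ => by simp [pk]

private theorem b10 (k : ℕ) : QD (fun _ R x y _ => R k [y, x]) :=
  (QD.r2 k 1 0 (by norm_num) (by norm_num)).congr fun _ _ _ _ _ => by simp [pk]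

private theorem b12 (k : ℕ) : QD (fun _ R _ y z => R k [y, z]) :=
  (QD.r2 k 1 2 (by norm_num) (by norm_num)).congr fun _ _ _ _ _ => by simp [pk]

private theorem b20 (k : ℕ) : QD (fun _ R x _ z => R k [z, x]) :=
  (QD.r2 k 2 0 (by norm_num) (by norm_num)).congr fun _ _ _ _ _ => by simp [pk]

private theorem b21 (k : ℕ) : QD (fun _ R _ y z => R k [z, y]) :=
  (QD.r2 k 2 1 (by norm_num) (by norm_num)).congr fun _ _ _ _ _ => by simp [pk]

private theorem e01 : QD (fun _ _ x y _ => x = y) :=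
  (QD.eq 0 1 (by norm_num) (by norm_num)).congr fun _ _ _ _ _ => by simp [pk]

private theorem e21 : QD (fun _ _ _ y z => z = y) :=
  (QD.eq 2 1 (by norm_num) (by norm_num)).congr fun _ _ _ _ _ => by simp [pk]

theorem pf_QT : T_QT := by
  intro Q _ e Hh Vv
  unfold Tk TkE TkN TkP TkC TkG TkCC TkGG St.Sep St.Cb St.gp St.cl
  repeat' first
    | exact u0 _ | exact u1 _ | exact u2 _ | exact b01 _ | exact b02 _ | exact b10 _ | exact b12 _
    | exact b20 _ | exact b21 _ | exact e01 | exact e21 | exact QD.const _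
    | refine QD.and ?_ ?_ | refine QD.or ?_ ?_ | refine QD.iff ?_ ?_ | refine QD.not ?_
    | refine QD.imp ?_ ?_ | refine QD.all (fun _ => ?_) | refine QD.ex (fun _ => ?_)

end Pool.Agent.H12.PX.QT
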